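import Pool.Agent.Helper95_DC.Sys

set_option autoImplicit false

/-!
Mixing of Bernoulli systems, products of mixing systems, ergodicity of mixing systems.
-/

namespace Pool.Agent.Helper95_DC

open MeasureTheory Filter Set

namespace MixAux

/-- Mixing of the Bernoulli system on boxes. -/
theorem bern_piMixing (G : Type) [Group G] [Countable G] [Infinite G] (B : Type)
    [MeasurableSpace B] (β : Measure B) [IsProbabilityMeasure β] : (bern G β).PiMixing := by
  classical
  refine ⟨squareCylinders (fun _ : G => {s : Set B | MeasurableSet s}), ?_, ?_, ?_, ?_⟩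
  · refine isPiSystem_squareCylinders (fun _ => MeasurableSpace.isPiSystem_measurableSet)
      (fun _ => ?_)
    exact MeasurableSet.univ
  · exact generateFrom_squareCylinders.symm
  · refine ⟨∅, fun _ => univ, ?_, ?_⟩
    · intro i _
      exact MeasurableSet.univ
    · simp
  · rintro A ⟨s, t, ht, rfl⟩ A' ⟨s', t', ht', rfl⟩
    have ht1 : ∀ i, MeasurableSet (t i) := fun i => ht i (mem_univ i)
    have ht2 : ∀ i, MeasurableSet (t' i) := fun i => ht' i (mem_univ i)
    -- bad group elements
    have hfin : {g : G | ¬ Disjoint s (s'.image (fun h => g⁻¹ * h))}.Finite := by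
      refine ((s'.product s).image (fun p => p.1 * p.2⁻¹)).finite_toSet.subset ?_
      intro g hg
      simp only [mem_ofPred_eq, Finset.not_disjoint_iff] at hg
      obtain ⟨a, ha, hb⟩ := hg
      simp only [Finset.mem_image] at hb
      obtain ⟨h, hh, rfl⟩ := hb
      simp only [Finset.coe_image, mem_image, SetLike.mem_coe]
      refine ⟨(h, g⁻¹ * h), ?_, ?_⟩
      · exact Finset.mem_product.2 ⟨hh, ha⟩
      · simp
    have hev : ∀ᶠ g in cofinite, Disjoint s (s'.image (fun h => g⁻¹ * h)) := by
      rw [Filter.eventually_cofinite]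
      exact hfin
    filter_upwards [hev] with g hg
    have hpre : ((bern G β).T g) ⁻¹' (Set.pi (s' : Set G) t') =
        Set.pi ((s'.image (fun h => g⁻¹ * h) : Finset G) : Set G) (fun h => t' (g * h)) := by
      ext x
      simp only [bern, shift, Set.mem_preimage, Set.mem_pi, SetLike.mem_coe, Finset.coe_image,
        Set.mem_image]
      constructor
      · rintro h i ⟨j, hj, rfl⟩
        rw [mul_inv_cancel_left]
        exact h j hj
      · intro h i hi
        have := h (g⁻¹ * i) ⟨i, hi, rfl⟩
        rwa [mul_inv_cancel_left] at this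
    have hP : (bern G β).P = Measure.infinitePi (fun _ : G => β) := rfl
    have hinv : (bern G β).P (((bern G β).T g) ⁻¹' (Set.pi (s' : Set G) t')) =
        (bern G β).P (Set.pi (s' : Set G) t') :=
      ((bern G β).mp g).measure_preimage
        (MeasurableSet.pi s'.countable_toSet (fun i _ => ht2 i)).nullMeasurableSet
    rw [← hinv, hpre, hP]
    have hU : Set.pi (s : Set G) t ∩
        Set.pi ((s'.image (fun h => g⁻¹ * h) : Finset G) : Set G) (fun h => t' (g * h)) =
        Set.pi ((s ∪ s'.image (fun h => g⁻¹ * h) : Finset G) : Set G)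
          (fun i => if i ∈ s then t i else t' (g * i)) := by
      ext x
      simp only [mem_inter_iff, Set.mem_pi, SetLike.mem_coe, Finset.mem_union]
      constructor
      · rintro ⟨h1, h2⟩ i (hi | hi)
        · rw [if_pos hi]; exact h1 i hi
        · rw [if_neg (Finset.disjoint_right.1 hg hi)]
          exact h2 i hi
      · intro h
        refine ⟨fun i hi => ?_, fun i hi => ?_⟩
        · have := h i (Or.inl hi)
          rwa [if_pos hi] at this
        · have := h i (Or.inr hi)
          rwa [if_neg (Finset.disjoint_right.1 hg hi)] at this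
    rw [hU, Measure.infinitePi_pi, Measure.infinitePi_pi, Measure.infinitePi_pi,
      Finset.prod_union hg]
    · congr 1
      · refine Finset.prod_congr rfl (fun i hi => ?_)
        rw [if_pos hi]
      · refine Finset.prod_congr rfl (fun i hi => ?_)
        rw [if_neg (Finset.disjoint_right.1 hg hi)]
    · intro i _
      exact ht2 _
    · intro i _
      exact ht1 _
    · intro i _
      by_cases hi : i ∈ s
      · simp only [if_pos hi]; exact ht1 _
      · simp only [if_neg hi]; exact ht2 _

theorem prod_piMixing (G : Type) [Group G] (Ω Ω' : Type) [mΩ : MeasurableSpace Ω]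
    [mΩ' : MeasurableSpace Ω'] (s : Sys G Ω) (s' : Sys G Ω') (h : s.PiMixing)
    (h' : s'.PiMixing) : (s.prod s').PiMixing := by
  obtain ⟨C, hC, hgC, huC, hmC⟩ := h
  obtain ⟨D, hD, hgD, huD, hmD⟩ := h'
  refine ⟨image2 (· ×ˢ ·) C D, hC.prod hD, ?_, ?_, ?_⟩
  · have h1 : IsCountablySpanning C := ⟨fun _ => univ, fun _ => huC, by simp [iUnion_const]⟩
    have h2 : IsCountablySpanning D := ⟨fun _ => univ, fun _ => huD, by simp [iUnion_const]⟩
    exact (generateFrom_eq_prod hgC.symm hgD.symm h1 h2).symm
  · exact ⟨univ, huC, univ, huD, by simp⟩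
  · rintro _ ⟨A, hA, A', hA', rfl⟩ _ ⟨B, hB, B', hB', rfl⟩
    filter_upwards [hmC A hA B hB, hmD A' hA' B' hB'] with g h1 h2
    have hpre : (s.prod s').T g ⁻¹' (B ×ˢ B') = (s.T g ⁻¹' B) ×ˢ (s'.T g ⁻¹' B') := by
      ext x
      rfl
    have hP : (s.prod s').P = s.P.prod s'.P := rfl
    rw [hpre, prod_inter_prod, hP, Measure.prod_prod, Measure.prod_prod, Measure.prod_prod, h1, h2]
    ring

/-- The countable additivity step. -/
theorem tendsto_iUnion {G : Type} [Group G] {Ω : Type} [MeasurableSpace Ω] (P : Measure Ω)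
    [IsProbabilityMeasure P] (A : G → ℕ → Set Ω) (B : ℕ → Set Ω) (l : ℕ → ℝ)
    (hA : ∀ g n, MeasurableSet (A g n)) (hB : ∀ n, MeasurableSet (B n))
    (hdA : ∀ g, Pairwise (Function.onFun Disjoint (A g)))
    (hdB : Pairwise (Function.onFun Disjoint B))
    (hle : ∀ g n, P.real (A g n) ≤ P.real (B n))
    (hlim : ∀ n, Tendsto (fun g => P.real (A g n)) cofinite (nhds (l n))) :
    Tendsto (fun g => P.real (⋃ n, A g n)) cofinite (nhds (∑' n, l n)) := by
  have hsum : ∀ g, HasSum (fun n => P.real (A g n)) (P.real (⋃ n, A g n)) := by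
    intro g
    have h1 : P (⋃ n, A g n) = ∑' n, P (A g n) := measure_iUnion (hdA g) (hA g)
    have h2 : ∑' n, P (A g n) ≠ ⊤ := by rw [← h1]; exact measure_ne_top _ _
    have h3 := (ENNReal.summable_toReal h2).hasSum
    rw [measureReal_def, h1, ENNReal.tsum_toReal_eq (fun n => measure_ne_top _ _)]
    exact h3
  have hsumB : Summable (fun n => P.real (B n)) := by
    have h1 : P (⋃ n, B n) = ∑' n, P (B n) := measure_iUnion hdB hB
    have h2 : ∑' n, P (B n) ≠ ⊤ := by rw [← h1]; exact measure_ne_top _ _
    exact ENNReal.summable_toReal h2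
  have := tendsto_tsum_of_dominated_convergence (𝓕 := (cofinite : Filter G))
    (f := fun g n => P.real (A g n)) (g := l) hsumB hlim ?_
  · refine this.congr (fun g => ?_)
    exact (hsum g).tsum_eq
  · refine Eventually.of_forall (fun g n => ?_)
    rw [Real.norm_eq_abs, abs_of_nonneg measureReal_nonneg]
    exact hle g n

/-- Mixing for all measurable sets. -/
theorem mixing (G : Type) [Group G] (Ω : Type) [mΩ : MeasurableSpace Ω]
    (s : Sys G Ω) (h : s.PiMixing) (A B : Set Ω) (hA : MeasurableSet A) (hB : MeasurableSet B) :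
    Tendsto (fun g => s.P.real (A ∩ s.T g ⁻¹' B)) cofinite (nhds (s.P.real A * s.P.real B)) := by
  obtain ⟨C, hC, hgC, huC, hmC⟩ := h
  have hCm : ∀ A ∈ C, MeasurableSet A := fun A hA => by
    rw [hgC]; exact MeasurableSpace.measurableSet_generateFrom hA
  have hpre : ∀ (g : G) (B : Set Ω), MeasurableSet B → s.P.real (s.T g ⁻¹' B) = s.P.real B := by
    intro g B hB
    rw [measureReal_def, measureReal_def, (s.mp g).measure_preimage hB.nullMeasurableSet]
  -- first step
  have step1 : ∀ A ∈ C, ∀ B, MeasurableSet B →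
      Tendsto (fun g => s.P.real (A ∩ s.T g ⁻¹' B)) cofinite
        (nhds (s.P.real A * s.P.real B)) := by
    intro A hA B hB
    have hAm := hCm A hA
    induction B, hB using MeasurableSpace.induction_on_inter hgC hC with
    | empty => simpa using tendsto_const_nhds
    | basic B hB =>
      refine tendsto_const_nhds.congr' ?_
      filter_upwards [hmC A hA B hB] with g hg
      rw [measureReal_def, measureReal_def, measureReal_def, hg, ENNReal.toReal_mul]
    | compl B hB ih =>
      have h1 : ∀ g, s.P.real (A ∩ s.T g ⁻¹' Bᶜ) = s.P.real A - s.P.real (A ∩ s.T g ⁻¹' B) := by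
        intro g
        have := measureReal_inter_add_sdiff (μ := s.P) (s := A) (((s.mp g).measurable) hB)
        rw [preimage_compl, ← sdiff_eq]
        linarith
      rw [probReal_compl_eq_one_sub hB, mul_sub, mul_one]
      simp only [h1]
      exact tendsto_const_nhds.sub ih
    | iUnion f hd hf ih =>
      have h1 : ∀ g, A ∩ s.T g ⁻¹' (⋃ n, f n) = ⋃ n, A ∩ s.T g ⁻¹' f n := by
        intro g
        rw [preimage_iUnion, inter_iUnion]
      simp only [h1]
      have h2 : HasSum (fun n => s.P.real A * s.P.real (f n)) (s.P.real A * s.P.real (⋃ n, f n)) := by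
        refine HasSum.mul_left _ ?_
        have h1 : s.P (⋃ n, f n) = ∑' n, s.P (f n) := measure_iUnion hd hf
        have h2 : ∑' n, s.P (f n) ≠ ⊤ := by rw [← h1]; exact measure_ne_top _ _
        have h3 := (ENNReal.summable_toReal h2).hasSum
        rw [measureReal_def, h1, ENNReal.tsum_toReal_eq (fun n => measure_ne_top _ _)]
        exact h3
      rw [← h2.tsum_eq]
      refine tendsto_iUnion s.P (fun g n => A ∩ s.T g ⁻¹' f n) f _
        (fun g n => hAm.inter ((s.mp g).measurable (hf n))) hf ?_ hd ?_ ih
      · intro g i j hij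
        exact ((hd hij).preimage _).mono inter_subset_right inter_subset_right
      · intro g n
        rw [← hpre g (f n) (hf n)]
        exact measureReal_mono inter_subset_right
  -- second step
  induction A, hA using MeasurableSpace.induction_on_inter hgC hC with
  | empty => simpa using tendsto_const_nhds
  | basic A hA => exact step1 A hA B hB
  | compl A hA ih =>
    have h1 : ∀ g, s.P.real (Aᶜ ∩ s.T g ⁻¹' B) = s.P.real B - s.P.real (A ∩ s.T g ⁻¹' B) := by
      intro g
      have := measureReal_inter_add_sdiff (μ := s.P) (s := s.T g ⁻¹' B) hA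
      rw [hpre g B hB] at this
      rw [inter_comm A, inter_comm Aᶜ, ← sdiff_eq]
      linarith
    rw [probReal_compl_eq_one_sub hA, sub_mul, one_mul]
    simp only [h1]
    exact tendsto_const_nhds.sub ih
  | iUnion f hd hf ih =>
    have h1 : ∀ g, (⋃ n, f n) ∩ s.T g ⁻¹' B = ⋃ n, f n ∩ s.T g ⁻¹' B := by
      intro g
      rw [iUnion_inter]
    simp only [h1]
    have h2 : HasSum (fun n => s.P.real (f n) * s.P.real B) (s.P.real (⋃ n, f n) * s.P.real B) := by
      refine HasSum.mul_right _ ?_
      have h1 : s.P (⋃ n, f n) = ∑' n, s.P (f n) := measure_iUnion hd hf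
      have h2 : ∑' n, s.P (f n) ≠ ⊤ := by rw [← h1]; exact measure_ne_top _ _
      have h3 := (ENNReal.summable_toReal h2).hasSum
      rw [measureReal_def, h1, ENNReal.tsum_toReal_eq (fun n => measure_ne_top _ _)]
      exact h3
    rw [← h2.tsum_eq]
    refine tendsto_iUnion s.P (fun g n => f n ∩ s.T g ⁻¹' B) f _
      (fun g n => (hf n).inter ((s.mp g).measurable hB)) hf ?_ hd ?_ ih
    · intro g i j hij
      exact (hd hij).mono inter_subset_left inter_subset_left
    · intro g n
      exact measureReal_mono inter_subset_left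

theorem erg (G : Type) [Group G] [Infinite G] (Ω : Type) [mΩ : MeasurableSpace Ω]
    (s : Sys G Ω) (h : s.PiMixing) : s.Erg := by
  intro A hA hinv
  have h1 := mixing G Ω s h A A hA hA
  have h2 : ∀ g, s.P.real (A ∩ s.T g ⁻¹' A) = s.P.real A := by
    intro g
    refine measureReal_congr ?_
    have : ∀ᵐ ω ∂s.P, (ω ∈ A ∩ s.T g ⁻¹' A) = (ω ∈ A) := by
      filter_upwards [hinv g] with ω hω
      rw [eq_iff_iff]
      simp only [mem_inter_iff, mem_preimage]
      tauto
    exact this
  simp only [h2] at h1
  have h3 : s.P.real A = s.P.real A * s.P.real A :=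
    tendsto_nhds_unique (tendsto_const_nhds) h1
  have h4 : s.P.real A = 0 ∨ s.P.real A = 1 := by
    have : s.P.real A * (1 - s.P.real A) = 0 := by linarith
    rcases mul_eq_zero.1 this with h | h
    · left; exact h
    · right; linarith
  rcases h4 with h4 | h4
  · left
    rwa [measureReal_eq_zero_iff] at h4
  · right
    rw [measureReal_def] at h4
    rw [← ENNReal.ofReal_toReal (measure_ne_top s.P A), h4]
    simp

end MixAux

theorem mix : MixStatement :=
  ⟨fun G _ _ _ B _ β _ => MixAux.bern_piMixing G B β,
    fun G _ Ω Ω' _ _ s s' h h' => MixAux.prod_piMixing G Ω Ω' s s' h h',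
    fun G _ _ Ω _ s h => MixAux.erg G Ω s h⟩

end Pool.Agent.Helper95_DC
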