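import Pool.Agent.Helper13_DC.Mix

set_option autoImplicit false

/-!
The resampling path of factor maps: measure preservation, equivariance, continuity.
-/

namespace Pool.Agent.Helper95_DC

open MeasureTheory Filter Set

namespace PathAux

theorem um (B : Type) [MeasurableSpace B] : (univ : Set B) ∈ {s : Set B | MeasurableSet s} := by
  show MeasurableSet (univ : Set B)
  exact MeasurableSet.univ

/-- Splitting map. -/
def spl (G : Type) (w : G → unitInterval × (unitInterval × unitInterval)) : X0 G × Z0 G :=
  (fun g => (w g).1, fun g => (w g).2)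

theorem measurable_spl (G : Type) : Measurable (spl G) := by
  unfold spl
  fun_prop

/-- Coordinatewise resampling. -/
noncomputable def hh (t : ℝ) (p : unitInterval × (unitInterval × unitInterval)) : unitInterval :=
  if ((p.2).2 : ℝ) < t then (p.2).1 else p.1

theorem measurable_hh (t : ℝ) : Measurable (hh t) := by
  unfold hh
  refine Measurable.ite ?_ (by fun_prop) (by fun_prop)
  exact measurableSet_lt (by fun_prop) measurable_const

theorem measurable_path {G : Type} (t : ℝ) : Measurable (path (G := G) t) := by
  refine measurable_pi_iff.2 (fun g => ?_)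
  unfold path
  refine Measurable.ite ?_ (by fun_prop) (by fun_prop)
  exact measurableSet_lt (by fun_prop) measurable_const

theorem map_hh (t : ℝ) :
    (volume : Measure (unitInterval × (unitInterval × unitInterval))).map (hh t) = volume := by
  ext U hU
  rw [Measure.map_apply (measurable_hh t) hU]
  have hJ : MeasurableSet {x : unitInterval | (x : ℝ) < t} :=
    measurableSet_lt (by fun_prop) measurable_const
  have h1 : hh t ⁻¹' U = (univ ×ˢ (U ×ˢ {x : unitInterval | (x : ℝ) < t})) ∪
      (U ×ˢ (univ ×ˢ {x : unitInterval | (x : ℝ) < t}ᶜ)) := by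
    ext ⟨a, b, c⟩
    simp only [hh, mem_preimage, mem_union, mem_prod, mem_univ, true_and, mem_compl_iff,
      mem_ofPred_eq]
    by_cases hc : (c : ℝ) < t
    · simp [hc]
    · simp [hc]
  rw [h1, measure_union _ (hU.prod (MeasurableSet.univ.prod hJ.compl)),
    Measure.volume_eq_prod, Measure.volume_eq_prod, Measure.prod_prod, Measure.prod_prod,
    Measure.prod_prod, Measure.prod_prod, measure_univ, one_mul, one_mul, ← mul_add,
    prob_add_prob_compl hJ, mul_one]
  rw [Set.disjoint_left]
  rintro ⟨a, b, c⟩ h2 h3
  exact h3.2.2 h2.2.2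

/-- finite spanning sets -/
def fss {α : Type} [MeasurableSpace α] (P : Measure α) [IsProbabilityMeasure P]
    (C : Set (Set α)) (h : univ ∈ C) : P.FiniteSpanningSetsIn C :=
  ⟨fun _ => univ, fun _ => h, fun _ => measure_lt_top _ _, by simp [iUnion_const]⟩

theorem map_spl (G : Type) [Group G] [Countable G] :
    (Measure.infinitePi (fun _ : G =>
      (volume : Measure (unitInterval × (unitInterval × unitInterval))))).map (spl G) =
      ((bX G).prod (bZ G)).P := by
  classical
  symm
  have hP : ((bX G).prod (bZ G)).P = (bX G).P.prod (bZ G).P := rfl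
  have huX : (univ : Set (X0 G)) ∈
      squareCylinders (fun _ : G => {s : Set unitInterval | MeasurableSet s}) :=
    ⟨∅, fun _ => univ, fun i _ => um _, by simp⟩
  have huZ : (univ : Set (Z0 G)) ∈
      squareCylinders (fun _ : G => {s : Set (unitInterval × unitInterval) | MeasurableSet s}) :=
    ⟨∅, fun _ => univ, fun i _ => um _, by simp⟩
  rw [hP]
  refine Measure.prod_eq_generateFrom
    (C := squareCylinders (fun _ : G => {s : Set unitInterval | MeasurableSet s}))
    (D := squareCylinders (fun _ : G => {s : Set (unitInterval × unitInterval) | MeasurableSet s}))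
    generateFrom_squareCylinders generateFrom_squareCylinders ?_ ?_ (fss _ _ huX) (fss _ _ huZ) ?_
  · exact isPiSystem_squareCylinders (fun _ => MeasurableSpace.isPiSystem_measurableSet)
      (fun _ => um _)
  · exact isPiSystem_squareCylinders (fun _ => MeasurableSpace.isPiSystem_measurableSet)
      (fun _ => um _)
  · rintro A ⟨s, t, ht, rfl⟩ A' ⟨s', t', ht', rfl⟩
    have ht1 : ∀ i, MeasurableSet (t i) := fun i => ht i (mem_univ i)
    have ht2 : ∀ i, MeasurableSet (t' i) := fun i => ht' i (mem_univ i)
    have hm1 : MeasurableSet (Set.pi (s : Set G) t) :=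
      MeasurableSet.pi s.countable_toSet (fun i _ => ht1 i)
    have hm2 : MeasurableSet (Set.pi (s' : Set G) t') :=
      MeasurableSet.pi s'.countable_toSet (fun i _ => ht2 i)
    rw [Measure.map_apply (measurable_spl G) (hm1.prod hm2)]
    have hpre : spl G ⁻¹' ((Set.pi (s : Set G) t) ×ˢ (Set.pi (s' : Set G) t')) =
        Set.pi ((s ∪ s' : Finset G) : Set G)
          (fun i => (if i ∈ s then t i else univ) ×ˢ (if i ∈ s' then t' i else univ)) := by
      ext w
      simp only [spl, mem_preimage, mem_prod, Set.mem_pi, SetLike.mem_coe, Finset.mem_union]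
      constructor
      · rintro ⟨h1, h2⟩ i _
        constructor
        · by_cases hi : i ∈ s
          · rw [if_pos hi]; exact h1 i hi
          · rw [if_neg hi]; exact mem_univ _
        · by_cases hi : i ∈ s'
          · rw [if_pos hi]; exact h2 i hi
          · rw [if_neg hi]; exact mem_univ _
      · intro h
        refine ⟨fun i hi => ?_, fun i hi => ?_⟩
        · have := (h i (Or.inl hi)).1
          rwa [if_pos hi] at this
        · have := (h i (Or.inr hi)).2
          rwa [if_pos hi] at this
    rw [hpre, Measure.infinitePi_pi]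
    · have hPX : (bX G).P = Measure.infinitePi (fun _ : G => (volume : Measure unitInterval)) := rfl
      have hPZ : (bZ G).P = Measure.infinitePi
        (fun _ : G => (volume : Measure (unitInterval × unitInterval))) := rfl
      rw [hPX, hPZ, Measure.infinitePi_pi _ (fun i _ => ht1 i),
        Measure.infinitePi_pi _ (fun i _ => ht2 i)]
      have e1 : ∀ i, (volume : Measure (unitInterval × (unitInterval × unitInterval)))
          ((if i ∈ s then t i else univ) ×ˢ (if i ∈ s' then t' i else univ)) =
          (if i ∈ s then (volume : Measure unitInterval) (t i) else 1) *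
          (if i ∈ s' then (volume : Measure (unitInterval × unitInterval)) (t' i) else 1) := by
        intro i
        rw [Measure.volume_eq_prod, Measure.prod_prod]
        congr 1
        · split_ifs
          · rfl
          · exact measure_univ
        · split_ifs
          · rfl
          · exact measure_univ
      simp only [e1]
      rw [Finset.prod_mul_distrib]
      congr 1
      · rw [Finset.prod_ite_mem, Finset.union_inter_cancel_left]
      · rw [Finset.prod_ite_mem, Finset.union_inter_cancel_right]
    · intro i _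
      refine MeasurableSet.prod ?_ ?_
      · split_ifs
        · exact ht1 i
        · exact MeasurableSet.univ
      · split_ifs
        · exact ht2 i
        · exact MeasurableSet.univ

theorem mp_path (G : Type) [Group G] [Countable G] (t : ℝ) :
    MeasurePreserving (path (G := G) t) ((bX G).prod (bZ G)).P (bX G).P := by
  refine ⟨measurable_path t, ?_⟩
  rw [← map_spl, Measure.map_map (measurable_path t) (measurable_spl G)]
  have h1 : path t ∘ spl G = fun w g => hh t (w g) := by
    funext w
    rfl
  rw [h1, Measure.infinitePi_map_pi (fun _ : G =>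
    (volume : Measure (unitInterval × (unitInterval × unitInterval)))) (fun _ => measurable_hh t)]
  simp only [map_hh]
  rfl

/-- tails -/
theorem tail {X : Type} [MeasurableSpace X] (P : Measure X) [IsProbabilityMeasure P]
    (E : ℕ → Set X) (hE : ∀ n, MeasurableSet (E n)) (hanti : Antitone E) (h0 : ⋂ n, E n = ∅)
    (ε : ℝ) (hε : 0 < ε) : ∃ N, P.real (E N) ≤ ε := by
  have h1 := tendsto_measure_iInter_atTop (μ := P) (s := E)
    (fun i => (hE i).nullMeasurableSet) hanti ⟨0, measure_ne_top _ _⟩
  rw [h0, measure_empty] at h1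
  have h2 : Tendsto (fun n => P.real (E n)) atTop (nhds 0) := by
    exact (ENNReal.tendsto_toReal ENNReal.zero_ne_top).comp h1
  obtain ⟨N, hN⟩ := ((h2.eventually (gt_mem_nhds hε))).exists
  exact ⟨N, hN.le⟩

theorem time_measure (G : Type) [Group G] [Countable G] (g : G) (a b : ℝ) (hab : a ≤ b) :
    ((bX G).prod (bZ G)).P.real {ω | a ≤ ((ω.2 g).2 : ℝ) ∧ ((ω.2 g).2 : ℝ) < b} ≤ b - a := by
  have hJ : MeasurableSet {x : unitInterval | a ≤ (x : ℝ) ∧ (x : ℝ) < b} := by
    have j1 : MeasurableSet {x : unitInterval | a ≤ (x : ℝ)} :=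
      measurableSet_le measurable_const (by fun_prop)
    have j2 : MeasurableSet {x : unitInterval | (x : ℝ) < b} :=
      measurableSet_lt (by fun_prop) measurable_const
    exact j1.inter j2
  have h1 : MeasurePreserving (fun ω : X0 G × Z0 G => (ω.2 g).2) ((bX G).prod (bZ G)).P volume := by
    have a1 : MeasurePreserving (Prod.snd : X0 G × Z0 G → Z0 G) ((bX G).prod (bZ G)).P (bZ G).P :=
      measurePreserving_snd
    have a2 : MeasurePreserving (Function.eval g : Z0 G → unitInterval × unitInterval) (bZ G).P
        volume := measurePreserving_eval_infinitePi _ g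
    have a3 : MeasurePreserving (Prod.snd : unitInterval × unitInterval → unitInterval)
        volume volume := measurePreserving_snd
    exact a3.comp (a2.comp a1)
  have h2 : ((bX G).prod (bZ G)).P {ω | a ≤ ((ω.2 g).2 : ℝ) ∧ ((ω.2 g).2 : ℝ) < b} =
      volume {x : unitInterval | a ≤ (x : ℝ) ∧ (x : ℝ) < b} :=
    h1.measure_preimage hJ.nullMeasurableSet
  have h3 : volume {x : unitInterval | a ≤ (x : ℝ) ∧ (x : ℝ) < b} ≤ ENNReal.ofReal (b - a) := by
    rw [unitInterval.volume_apply, ← Real.volume_Ico]
    refine measure_mono ?_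
    rintro _ ⟨x, hx, rfl⟩
    exact hx
  rw [measureReal_def, h2]
  exact ENNReal.toReal_le_of_le_ofReal (by linarith) h3

/-- Continuity property of a set. -/
def Cont (G : Type) [Group G] [Countable G] (A : Set (X0 G)) : Prop :=
  ∀ ε : ℝ, 0 < ε → ∃ η : ℝ, 0 < η ∧ ∀ t t' : ℝ, |t - t'| ≤ η →
    ((bX G).prod (bZ G)).P.real {ω | ¬ (path t ω ∈ A ↔ path t' ω ∈ A)} ≤ ε

theorem cont_box (G : Type) [Group G] [Countable G] (s : Finset G)
    (u : G → Set unitInterval) : Cont G (Set.pi (s : Set G) u) := by
  intro ε hε
  refine ⟨ε / (s.card + 1), by positivity, ?_⟩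
  intro t t' htt
  have hsub : {ω : X0 G × Z0 G | ¬ (path t ω ∈ Set.pi (s : Set G) u ↔
      path t' ω ∈ Set.pi (s : Set G) u)} ⊆
      ⋃ g ∈ s, {ω : X0 G × Z0 G | min t t' ≤ ((ω.2 g).2 : ℝ) ∧ ((ω.2 g).2 : ℝ) < max t t'} := by
    intro ω hω
    by_contra hcon
    simp only [mem_iUnion, not_exists] at hcon
    apply hω
    have heq : ∀ g ∈ s, path t ω g = path t' ω g := by
      intro g hg
      have := hcon g hg
      simp only [mem_ofPred_eq, not_and, not_lt] at this
      unfold path
      by_cases h1 : ((ω.2 g).2 : ℝ) < t <;> by_cases h2 : ((ω.2 g).2 : ℝ) < t'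
      · rw [if_pos h1, if_pos h2]
      · exfalso
        have := this ((min_le_right _ _).trans (not_lt.1 h2))
        exact absurd (lt_of_lt_of_le h1 (le_max_left t t')) (not_lt.2 this)
      · exfalso
        have := this ((min_le_left _ _).trans (not_lt.1 h1))
        exact absurd (lt_of_lt_of_le h2 (le_max_right t t')) (not_lt.2 this)
      · rw [if_neg h1, if_neg h2]
    simp only [Set.mem_pi, SetLike.mem_coe]
    constructor
    · intro h g hg
      rw [← heq g hg]; exact h g hg
    · intro h g hg
      rw [heq g hg]; exact h g hg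
  calc ((bX G).prod (bZ G)).P.real {ω : X0 G × Z0 G | ¬ (path t ω ∈ Set.pi (s : Set G) u ↔
      path t' ω ∈ Set.pi (s : Set G) u)}
      ≤ ((bX G).prod (bZ G)).P.real (⋃ g ∈ s, {ω : X0 G × Z0 G |
        min t t' ≤ ((ω.2 g).2 : ℝ) ∧ ((ω.2 g).2 : ℝ) < max t t'}) := measureReal_mono hsub (measure_ne_top _ _)
    _ ≤ ∑ g ∈ s, ((bX G).prod (bZ G)).P.real {ω : X0 G × Z0 G |
        min t t' ≤ ((ω.2 g).2 : ℝ) ∧ ((ω.2 g).2 : ℝ) < max t t'} :=
        measureReal_biUnion_finset_le _ _
    _ ≤ ∑ g ∈ s, ε / (s.card + 1) := by
        refine Finset.sum_le_sum (fun g _ => ?_)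
        refine (time_measure G g _ _ min_le_max).trans ?_
        rw [max_sub_min_eq_abs']
        exact htt
    _ ≤ ε := by
        rw [Finset.sum_const, nsmul_eq_mul]
        rw [mul_div_assoc', div_le_iff₀ (by positivity)]
        nlinarith

theorem path_real (G : Type) [Group G] [Countable G] (t : ℝ) (A : Set (X0 G))
    (hA : MeasurableSet A) :
    ((bX G).prod (bZ G)).P.real {ω | path t ω ∈ A} = (bX G).P.real A := by
  rw [measureReal_def, measureReal_def, ← (mp_path G t).measure_preimage hA.nullMeasurableSet]
  rfl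

theorem cont (G : Type) [Group G] [Countable G] (A : Set (X0 G)) (hA : MeasurableSet A) :
    Cont G A := by
  induction A, hA using MeasurableSpace.induction_on_inter
    (s := squareCylinders (fun _ : G => {s : Set unitInterval | MeasurableSet s}))
    generateFrom_squareCylinders.symm
    (isPiSystem_squareCylinders (fun _ => MeasurableSpace.isPiSystem_measurableSet)
      (fun _ => um _)) with
  | empty =>
    intro ε hε
    exact ⟨1, one_pos, fun t t' _ => by simpa using hε.le⟩
  | basic A hA =>
    obtain ⟨s, u, _, rfl⟩ := hA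
    exact cont_box G s u
  | compl A hA ih =>
    intro ε hε
    obtain ⟨η, hη, h⟩ := ih ε hε
    refine ⟨η, hη, fun t t' htt => ?_⟩
    refine le_trans (le_of_eq ?_) (h t t' htt)
    congr 1
    ext ω
    simp only [mem_ofPred_eq, mem_compl_iff]
    tauto
  | iUnion f hd hf ih =>
    intro ε hε
    obtain ⟨N, hN⟩ := tail (bX G).P (fun N => ⋃ n ∈ {n | N ≤ n}, f n)
      (fun N => MeasurableSet.biUnion (to_countable _) (fun n _ => hf n)) (by
        intro a b hab
        exact biUnion_subset_biUnion_left (fun n hn => le_trans hab hn)) (by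
        rw [eq_empty_iff_forall_notMem]
        intro x hx
        rw [mem_iInter] at hx
        have h0 := hx 0
        simp only [mem_iUnion] at h0
        obtain ⟨n, _, hn⟩ := h0
        have h1 := hx (n + 1)
        simp only [mem_iUnion] at h1
        obtain ⟨m, hm, hmx⟩ := h1
        have hm' : n + 1 ≤ m := hm
        exact (Set.disjoint_left.1 (hd (show n ≠ m by omega))) hn hmx) (ε / 4) (by positivity)
    choose η hη hη' using fun n => ih n (ε / (4 * (N + 1))) (by positivity)
    obtain ⟨η0, hη0, hle⟩ : ∃ η0 : ℝ, 0 < η0 ∧ ∀ n ∈ Finset.range (N + 1), η0 ≤ η n := by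
      have hne : (Finset.range (N + 1)).Nonempty := ⟨0, by simp⟩
      refine ⟨(Finset.range (N + 1)).inf' hne η, ?_, ?_⟩
      · rw [Finset.lt_inf'_iff]
        intro n _
        exact hη n
      · intro n hn
        exact Finset.inf'_le _ hn
    refine ⟨η0, hη0, fun t t' htt => ?_⟩
    set T : Set (X0 G) := ⋃ n ∈ {n | N ≤ n}, f n with hT
    have hTm : MeasurableSet T := MeasurableSet.biUnion (to_countable _) (fun n _ => hf n)
    have hsub : {ω : X0 G × Z0 G | ¬ (path t ω ∈ ⋃ n, f n ↔ path t' ω ∈ ⋃ n, f n)} ⊆
        (⋃ n ∈ Finset.range (N + 1), {ω : X0 G × Z0 G | ¬ (path t ω ∈ f n ↔ path t' ω ∈ f n)}) ∪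
        ({ω | path t ω ∈ T} ∪ {ω | path t' ω ∈ T}) := by
      intro ω hω
      by_contra hcon
      simp only [mem_union, not_or, mem_iUnion, not_exists, mem_ofPred_eq, not_not,
        Finset.mem_range] at hcon
      obtain ⟨h1, h2, h3⟩ := hcon
      apply hω
      simp only [mem_iUnion]
      constructor
      · rintro ⟨n, hn⟩
        by_cases hnN : n < N + 1
        · exact ⟨n, (h1 n hnN).1 hn⟩
        · exfalso
          apply h2
          simp only [hT, mem_iUnion]
          exact ⟨n, by simp only [mem_ofPred_eq]; omega, hn⟩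
      · rintro ⟨n, hn⟩
        by_cases hnN : n < N + 1
        · exact ⟨n, (h1 n hnN).2 hn⟩
        · exfalso
          apply h3
          simp only [hT, mem_iUnion]
          exact ⟨n, by simp only [mem_ofPred_eq]; omega, hn⟩
    calc _ ≤ ((bX G).prod (bZ G)).P.real _ := measureReal_mono hsub (measure_ne_top _ _)
      _ ≤ ((bX G).prod (bZ G)).P.real (⋃ n ∈ Finset.range (N + 1),
            {ω : X0 G × Z0 G | ¬ (path t ω ∈ f n ↔ path t' ω ∈ f n)}) +
          ((bX G).prod (bZ G)).P.real ({ω | path t ω ∈ T} ∪ {ω | path t' ω ∈ T}) :=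
          measureReal_union_le _ _
      _ ≤ ∑ n ∈ Finset.range (N + 1), (ε / (4 * (N + 1))) + (ε / 4 + ε / 4) := by
          refine add_le_add ?_ ?_
          · refine (measureReal_biUnion_finset_le _ _).trans ?_
            refine Finset.sum_le_sum (fun n hn => ?_)
            exact hη' n t t' (htt.trans (hle n hn))
          · refine (measureReal_union_le _ _).trans ?_
            rw [path_real G t T hTm, path_real G t' T hTm]
            exact add_le_add hN hN
      _ ≤ ε := by
          rw [Finset.sum_const, nsmul_eq_mul, Finset.card_range]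
          push_cast
          have : ((N : ℝ) + 1) * (ε / (4 * (N + 1))) = ε / 4 := by
            field_simp
          rw [this]
          linarith

theorem cont_fun (G : Type) [Group G] [Countable G] (K : Type) [Countable K] (F : X0 G → K)
    (hF : ∀ k, MeasurableSet (F ⁻¹' {k})) (ε : ℝ) (hε : 0 < ε) :
    ∃ η : ℝ, 0 < η ∧ ∀ t t' : ℝ, |t - t'| ≤ η →
        ((bX G).prod (bZ G)).P.real {ω | F (path t ω) ≠ F (path t' ω)} ≤ ε := by
  classical
  obtain ⟨e, he⟩ := exists_injective_nat K
  -- fibres of `e ∘ F`
  have hf : ∀ n : ℕ, MeasurableSet {x | e (F x) = n} := by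
    intro n
    have : {x | e (F x) = n} = ⋃ k ∈ {k | e k = n}, F ⁻¹' {k} := by
      ext x
      simp
    rw [this]
    exact MeasurableSet.biUnion (to_countable _) (fun k _ => hF k)
  have hmE : ∀ N : ℕ, MeasurableSet {x | N ≤ e (F x)} := by
    intro N
    have : {x | N ≤ e (F x)} = ⋃ n ∈ {n | N ≤ n}, {x | e (F x) = n} := by
      ext x
      simp
    rw [this]
    exact MeasurableSet.biUnion (to_countable _) (fun n _ => hf n)
  obtain ⟨N, hN⟩ := tail (bX G).P (fun N => {x | N ≤ e (F x)}) hmE (by
      intro a b hab x hx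
      exact le_trans hab hx) (by
      rw [eq_empty_iff_forall_notMem]
      intro x hx
      rw [mem_iInter] at hx
      have := hx (e (F x) + 1)
      simp only [mem_ofPred_eq] at this
      omega) (ε / 2) (by positivity)
  choose η hη hη' using fun n => cont G _ (hf n) (ε / (2 * (N + 1))) (by positivity)
  obtain ⟨η0, hη0, hle⟩ : ∃ η0 : ℝ, 0 < η0 ∧ ∀ n ∈ Finset.range (N + 1), η0 ≤ η n := by
    have hne : (Finset.range (N + 1)).Nonempty := ⟨0, by simp⟩
    refine ⟨(Finset.range (N + 1)).inf' hne η, ?_, ?_⟩
    · rw [Finset.lt_inf'_iff]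
      intro n _
      exact hη n
    · intro n hn
      exact Finset.inf'_le _ hn
  refine ⟨η0, hη0, fun t t' htt => ?_⟩
  have hsub : {ω : X0 G × Z0 G | F (path t ω) ≠ F (path t' ω)} ⊆
      (⋃ n ∈ Finset.range (N + 1), {ω : X0 G × Z0 G |
        ¬ (path t ω ∈ {x | e (F x) = n} ↔ path t' ω ∈ {x | e (F x) = n})}) ∪
      {ω | path t ω ∈ {x | N ≤ e (F x)}} := by
    intro ω hω
    by_contra hcon
    simp only [mem_union, not_or, mem_iUnion, not_exists, mem_ofPred_eq, not_not,
      Finset.mem_range, not_le] at hcon
    obtain ⟨h1, h2⟩ := hcon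
    apply hω
    apply he
    exact ((h1 (e (F (path t ω))) (by omega)).1 rfl).symm
  calc _ ≤ ((bX G).prod (bZ G)).P.real _ := measureReal_mono hsub (measure_ne_top _ _)
    _ ≤ ((bX G).prod (bZ G)).P.real (⋃ n ∈ Finset.range (N + 1), {ω : X0 G × Z0 G |
          ¬ (path t ω ∈ {x | e (F x) = n} ↔ path t' ω ∈ {x | e (F x) = n})}) +
        ((bX G).prod (bZ G)).P.real {ω | path t ω ∈ {x | N ≤ e (F x)}} :=
        measureReal_union_le _ _
    _ ≤ ∑ n ∈ Finset.range (N + 1), (ε / (2 * (N + 1))) + ε / 2 := by
        refine add_le_add ?_ ?_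
        · refine (measureReal_biUnion_finset_le _ _).trans ?_
          refine Finset.sum_le_sum (fun n hn => ?_)
          exact hη' n t t' (htt.trans (hle n hn))
        · rw [path_real G t _ (hmE N)]
          exact hN
    _ ≤ ε := by
        rw [Finset.sum_const, nsmul_eq_mul, Finset.card_range]
        push_cast
        have : ((N : ℝ) + 1) * (ε / (2 * (N + 1))) = ε / 2 := by
          field_simp
        rw [this]
        linarith

end PathAux

theorem pathStatement : PathStatement := by
  intro G _ _
  refine ⟨fun t => PathAux.mp_path G t, fun t g ω => rfl, fun ω => ?_, fun ω => ?_, ?_⟩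
  · funext g
    unfold path
    rw [if_neg]
    exact not_lt.2 (ω.2 g).2.2.1
  · funext g
    unfold path
    rw [if_pos]
    exact lt_of_le_of_lt (ω.2 g).2.2.2 (by norm_num)
  · intro K _ F hF ε hε
    exact PathAux.cont_fun G K F hF ε hε

end Pool.Agent.Helper95_DC
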